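import Pool.Agent.N303.SJ.Stm

set_option autoImplicit false

/-! A dyadic bound without decay. -/

open MeasureTheory Metric Set Filter Topology Measure
open scoped ENNReal RealInnerProductSpace Pointwise NNReal

namespace Pool.Agent.N303.SJ

open Pool.Agent.N303.SH

variable {c : ℕ}

theorem dyad' (hc : 1 ≤ c) {q δ c0 : ℝ} (hq2 : 2 < q) (hq4 : q < 4) (hδ0 : 0 ≤ δ) (hδ1 : δ < 1)
    (hc0 : 0 < c0) (hc1 : c0 ≤ 1) (hη : 1 < sc c * (q - 2)) :
    ∃ C : ℝ, 0 ≤ C ∧ ∀ (K : Set ℕ), Sparse δ c0 K → ∀ g : S (c + 2) → ℂ, Measurable g →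
      MemLp g 2 (sg (c + 2)) → Deg K g → ∀ j, ∫⁻ ξ, ‖ft (blk (dj K j) g) ξ‖ₑ ^ q ≤
        ENNReal.ofReal (C * ((2:ℝ) ^ j) ^ (1 - sc c * (q - 2) * (1 - δ))) * ∫⁻ y, ‖g y‖ₑ ^ q ∂(sg (c + 2)) := by
  classical
  have hs1 := sc_ge hc
  set γ := sc c * (q - 2) with hγd
  have hγ1 : 1 < γ := hη
  have hγ0 : 0 < γ := by linarith
  obtain ⟨B, hB0, hB⟩ := Ic_bd hc hq2 hq4 hγ1
  obtain ⟨x0⟩ : Nonempty (S (c + 2)) := ⟨⟨e0 c, by simpa using (on_e c).hu⟩⟩
  set R : ℝ := 2 * (32 * ((c : ℝ) + 1) / c0) ^ (c + 1) with hR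
  have hR0 : 0 < R := by rw [hR]; positivity
  have hq3 : 0 < q - 2 := by linarith
  set D : ℝ := 2 ^ q * q * (1 * (2 * B)) * (1 / (q - 2)) with hD
  set D2 : ℝ := 2 ^ q * q * (R ^ ((q - 2) / 2) * (2 * B)) * (1 / (q - 2)) * 2 ^ (γ * (1 - δ) - 1) with hD2
  have hD0 : 0 ≤ D := by rw [hD]; positivity
  have hD20 : 0 ≤ D2 := by rw [hD2]; positivity
  refine ⟨D + D2, by positivity, fun K hK g hgm hg2 hg j => ?_⟩
  cases j with
  | zero =>
    have hJ : ∀ k ∈ dj K 0, k ∈ K ∧ k = 0 := by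
      intro k hk
      unfold dj at hk
      simp only [Finset.mem_filter, Finset.mem_singleton] at hk
      exact ⟨hk.2, hk.1⟩
    have h1 := block (c := c) (K := K) (J := dj K 0) (m := 0) (M := 0) (fun k hk => (hJ k hk).1)
      (fun k _ k' hk' hne => by
        have := (hJ k' hk').2
        omega)
      (fun k hk => by rw [(hJ k hk).2]) hq2 hB0
      (fun k hk => by
        have h2 := hB k
        rw [(hJ k hk).2] at h2 ⊢
        simpa using h2)
      (zs_pos 0 x0) (fun x => zs_const 0 x x0) (zs_pos 0 x0) (fun x => zs_const 0 x x0) hgm hg2 hg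
    refine h1.trans ?_
    refine mul_le_mul' (ENNReal.ofReal_le_ofReal ?_) le_rfl
    rw [div_self (zs_pos 0 x0).ne', Real.one_rpow, pow_zero, Real.one_rpow, mul_one]
    linarith
  | succ j =>
    set N : ℕ := 2 ^ j with hN
    have hN1 : 1 ≤ N := Nat.one_le_pow _ _ (by norm_num)
    have hN1' : (1:ℝ) ≤ N := by exact_mod_cast hN1
    have hN0 : (0:ℝ) < N := by linarith
    set m : ℕ := ⌊c0 * (N : ℝ) ^ (1 - δ) / 8⌋₊ with hm
    have hm1 : (m : ℝ) ≤ c0 * (N : ℝ) ^ (1 - δ) / 8 := Nat.floor_le (by positivity)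
    have hm2 : c0 * (N : ℝ) ^ (1 - δ) / 8 ≤ (m : ℝ) + 1 := (Nat.lt_floor_add_one _).le
    have hNd : (N : ℝ) ^ (1 - δ) ≤ N := by
      calc (N : ℝ) ^ (1 - δ) ≤ (N : ℝ) ^ (1:ℝ) := Real.rpow_le_rpow_of_exponent_le hN1' (by linarith)
        _ = N := Real.rpow_one _
    have hmN : m ≤ N := by
      have : (m : ℝ) ≤ N := by nlinarith
      exact_mod_cast this
    have hJ : ∀ k ∈ dj K (j + 1), k ∈ K ∧ N ≤ k ∧ k < 2 * N := by
      intro k hk
      unfold dj at hk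
      simp only [Finset.mem_filter, Finset.mem_Ico] at hk
      refine ⟨hk.2, hk.1.1, ?_⟩
      have := hk.1.2
      rw [pow_succ] at this
      omega
    have h1 := block (c := c) (K := K) (J := dj K (j + 1)) (m := m) (M := 3 * N) (fun k hk => (hJ k hk).1)
      (fun k hk k' hk' hne => by
        obtain ⟨h3, h4, h5⟩ := hJ k' hk'
        rcases lt_or_gt_of_ne hne with h | h
        · exact Or.inl (sep_dyadic hc0 hc1 hδ0 hδ1 hK hN1 hm1 hk h3 h (Or.inr h4))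
        · exact Or.inr (sep_dyadic hc0 hc1 hδ0 hδ1 hK hN1 hm1 h3 hk h (Or.inl h4)))
      (fun k hk => by
        obtain ⟨h3, h4, h5⟩ := hJ k hk
        omega) hq2 (b := B * (N : ℝ) ^ (1 - γ)) (by positivity)
      (fun k hk => by
        obtain ⟨h3, h4, h5⟩ := hJ k hk
        refine (hB k).trans (ENNReal.ofReal_le_ofReal ?_)
        apply mul_le_mul_of_nonneg_left _ hB0
        apply Real.rpow_le_rpow_of_nonpos hN0 _ (by linarith)
        have : (N : ℝ) ≤ k := by exact_mod_cast h4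
        linarith)
      (zs_pos m x0) (fun x => zs_const m x x0) (zs_pos (3 * N) x0) (fun x => zs_const (3 * N) x x0)
      hgm hg2 hg
    refine h1.trans ?_
    refine mul_le_mul' (ENNReal.ofReal_le_ofReal ?_) le_rfl
    have h6 := ratio2 (c := c) hc0 hN1 hm2 x0
    have h7 : (zs (c + 2) (3 * N) x0 / zs (c + 2) m x0) ^ ((q - 2) / 2) ≤
        R ^ ((q - 2) / 2) * (N : ℝ) ^ (δ * γ) := by
      refine (Real.rpow_le_rpow (div_nonneg (zs_pos _ _).le (zs_pos _ _).le) h6 (by linarith)).trans ?_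
      rw [Real.mul_rpow hR0.le (by positivity)]
      apply le_of_eq
      congr 1
      rw [← Real.rpow_natCast, ← Real.rpow_mul hN0.le, ← Real.rpow_mul hN0.le]
      congr 1
      rw [hγd]
      unfold sc
      push_cast
      ring
    have e1 : ((2:ℝ) ^ (j + 1)) ^ (1 - γ * (1 - δ)) * 2 ^ (γ * (1 - δ) - 1) = (N : ℝ) ^ (1 - γ * (1 - δ)) := by
      have e2 : ((2:ℝ) ^ (j + 1)) = (N : ℝ) * 2 := by rw [hN]; push_cast; ring
      rw [e2, Real.mul_rpow hN0.le (by norm_num), mul_assoc, ← Real.rpow_add (by norm_num)]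
      rw [show 1 - γ * (1 - δ) + (γ * (1 - δ) - 1) = 0 by ring, Real.rpow_zero, mul_one]
    have e3 : (N : ℝ) ^ (δ * γ) * (N : ℝ) ^ (1 - γ) = (N : ℝ) ^ (1 - γ * (1 - δ)) := by
      rw [← Real.rpow_add hN0]
      congr 1
      ring
    have hX : 0 ≤ (N : ℝ) ^ (1 - γ) := by positivity
    calc 2 ^ q * q * ((zs (c + 2) (3 * N) x0 / zs (c + 2) m x0) ^ ((q - 2) / 2) *
          (2 * (B * (N : ℝ) ^ (1 - γ)))) * (1 / (q - 2)) ≤
        2 ^ q * q * ((R ^ ((q - 2) / 2) * (N : ℝ) ^ (δ * γ)) *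
          (2 * (B * (N : ℝ) ^ (1 - γ)))) * (1 / (q - 2)) := by gcongr
      _ = 2 ^ q * q * (R ^ ((q - 2) / 2) * (2 * B)) * (1 / (q - 2)) *
          ((N : ℝ) ^ (δ * γ) * (N : ℝ) ^ (1 - γ)) := by ring
      _ = D2 * ((2:ℝ) ^ (j + 1)) ^ (1 - γ * (1 - δ)) := by
          rw [e3, ← e1, hD2]
          ring
      _ ≤ (D + D2) * ((2:ℝ) ^ (j + 1)) ^ (1 - γ * (1 - δ)) := by
          apply mul_le_mul_of_nonneg_right _ (by positivity)
          linarith


end Pool.Agent.N303.SJ
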