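import Pool.Agent.N303.SJ.Parts
import Pool.Agent.N303.SJ.Dy

set_option autoImplicit false

/-! The dyadic blocks. -/

open MeasureTheory Metric Set Filter Topology Measure
open scoped ENNReal RealInnerProductSpace Pointwise NNReal

namespace Pool.Agent.N303.SJ

open Pool.Agent.N303.SH

lemma Sh_meas (n : ℕ) (T : ℝ) : MeasurableSet (Sh n T) := by
  unfold Sh
  exact (measurableSet_le measurable_const measurable_norm).inter
    (measurableSet_le measurable_norm measurable_const)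

lemma cover {n : ℕ} {f : E n → ℝ≥0∞} (hf : Measurable f) {R0 R1 : ℝ} (h0 : 0 < R0) {I : ℕ}
    (hI : R1 < 2 ^ I * R0) :
    ∫⁻ x, f x ≤ (∫⁻ x in ball 0 R0, f x) +
      (∑ i ∈ (Finset.range I).filter (fun i => 2 ^ i * R0 ≤ R1), ∫⁻ x in Sh n (2 ^ i * R0), f x) +
      ∫⁻ x in {x | R1 < ‖x‖}, f x := by
  have hm3 : MeasurableSet {x : E n | R1 < ‖x‖} := measurableSet_lt measurable_const measurable_norm
  rw [← lintegral_indicator measurableSet_ball, ← lintegral_indicator hm3]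
  simp only [← lintegral_indicator (Sh_meas n _)]
  rw [← lintegral_finsetSum _ fun i _ => hf.indicator (Sh_meas n _),
    ← lintegral_add_left (hf.indicator measurableSet_ball),
    ← lintegral_add_right _ (hf.indicator hm3)]
  apply lintegral_mono
  intro x
  by_cases c1 : ‖x‖ < R0
  · have hx : x ∈ ball (0 : E n) R0 := by rwa [mem_ball_zero_iff]
    simp only [indicator_of_mem hx]
    exact le_add_right (le_add_right le_rfl)
  · by_cases c2 : R1 < ‖x‖
    · have hx : x ∈ {x : E n | R1 < ‖x‖} := c2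
      simp only [indicator_of_mem hx]
      exact le_add_left le_rfl
    · push Not at c1 c2
      obtain ⟨i, hi1, hi2⟩ := exists_nat_pow_near (x := ‖x‖ / R0) (y := 2)
        (by rw [le_div_iff₀ h0]; linarith) (by norm_num)
      rw [le_div_iff₀ h0] at hi1
      rw [div_lt_iff₀ h0] at hi2
      have hmem : i ∈ (Finset.range I).filter (fun i => (2:ℝ) ^ i * R0 ≤ R1) := by
        rw [Finset.mem_filter, Finset.mem_range]
        refine ⟨?_, hi1.trans c2⟩
        by_contra hcon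
        push Not at hcon
        have h1 : (2:ℝ) ^ I ≤ 2 ^ i := pow_le_pow_right₀ (by norm_num) hcon
        have h2 := mul_le_mul_of_nonneg_right h1 h0.le
        linarith
      have hx : x ∈ Sh n (2 ^ i * R0) := by
        refine ⟨hi1, ?_⟩
        rw [pow_succ] at hi2
        linarith
      have h3 : f x ≤ ∑ i ∈ (Finset.range I).filter (fun i => (2:ℝ) ^ i * R0 ≤ R1),
          (Sh n (2 ^ i * R0)).indicator f x := by
        refine le_trans ?_ (Finset.single_le_sum (f := fun i => (Sh n (2 ^ i * R0)).indicator f x)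
          (fun _ _ => zero_le) hmem)
        simp only [indicator_of_mem hx]
        exact le_rfl
      exact h3.trans (le_add_right (le_add_left le_rfl))

theorem t_blk (hT : S_TAY) (hSL : S_SL) (hSH : S_SHELL) (hF : S_FAR) (hU : S_BESU) : S_BLK := by
  classical
  intro c hc q δ c0 hq4' hδ0 hδ1 hc0 hc1 hη
  have hc' : (1:ℝ) ≤ c := by exact_mod_cast hc
  have hcp : (0:ℝ) < (c:ℝ) + 1 := by linarith
  set γ : ℝ := sc c * (q - 2) with hγd
  have hγe : γ = ((c:ℝ) + 1) / 2 * (q - 2) := by rw [hγd]; rfl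
  have hγ1 : 1 < γ := by linarith
  have hγ2 : γ < 2 := by
    have h1 : q - 2 < 4 / ((c:ℝ) + 1) := by linarith
    rw [lt_div_iff₀ hcp] at h1
    rw [hγe]; linarith
  have hq2 : 2 < q := by
    by_contra hcon
    push Not at hcon
    have h1 : γ ≤ 0 := by
      rw [hγe]
      exact mul_nonpos_of_nonneg_of_nonpos (by linarith) (by linarith)
    linarith
  have hq4 : q < 4 := by
    have h1 : 4 / ((c:ℝ) + 1) ≤ 2 := by
      rw [div_le_iff₀ hcp]; linarith
    linarith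
  -- the exponents
  have hamax : max 1 (δ * γ / (γ - 1)) < (1 - δ) * γ / (2 - γ) := by
    apply max_lt
    · rw [lt_div_iff₀ (by linarith)]
      nlinarith
    · rw [div_lt_div_iff₀ (by linarith) (by linarith)]
      nlinarith
  obtain ⟨a1, ha1, ha2⟩ := exists_between hamax
  have ha11 : 1 < a1 := (le_max_left _ _).trans_lt ha1
  have ha12 : δ * γ < a1 * (γ - 1) := by
    have h1 := (le_max_right _ _).trans_lt ha1
    rwa [div_lt_iff₀ (by linarith)] at h1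
  have ha13 : a1 * (2 - γ) < (1 - δ) * γ := by
    rwa [lt_div_iff₀ (by linarith)] at ha2
  have hs0 : max 0 ((a1 - (1 - δ) * γ) / (a1 - (1 - δ))) < γ / 2 := by
    apply max_lt (by linarith)
    rw [div_lt_iff₀ (by linarith)]
    linarith
  obtain ⟨s1, hs1, hs2⟩ := exists_between hs0
  have hs10 : 0 < s1 := (le_max_left _ _).trans_lt hs1
  have hs11 : a1 - (1 - δ) * γ < s1 * (a1 - (1 - δ)) := by
    have h1 := (le_max_right _ _).trans_lt hs1
    rwa [div_lt_iff₀ (by linarith)] at h1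
  set P : ℝ := 2 + (q - 2) / s1 with hP
  have hP1 : 2 + 4 / ((c:ℝ) + 1) < P := by
    have h1 : 4 / ((c:ℝ) + 1) < (q - 2) / s1 := by
      rw [div_lt_div_iff₀ hcp hs10]
      rw [hγe] at hs2
      linarith
    linarith
  have hsP : (q - 2) / (P - 2) = s1 := by
    rw [hP, show 2 + (q - 2) / s1 - 2 = (q - 2) / s1 by ring]
    have : q - 2 ≠ 0 := by linarith
    field_simp
  have hs12 : s1 < 1 := by linarith
  have hqP : q < P := by
    have h1 : q - 2 < (q - 2) / s1 := by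
      rw [lt_div_iff₀ hs10]
      nlinarith
    linarith
  set ε₁ : ℝ := (1 - δ) * (γ - s1) - a1 * (1 - s1) with hε₁
  have hε₁0 : 0 < ε₁ := by rw [hε₁]; linarith
  set ε₂ : ℝ := a1 * (γ - 1) - δ * γ with hε₂
  have hε₂0 : 0 < ε₂ := by rw [hε₂]; linarith
  set ε : ℝ := min (ε₁ / 2) (min ε₂ 1) with hε
  have hε0 : 0 < ε := by
    rw [hε]
    exact lt_min (by linarith) (lt_min hε₂0 one_pos)
  have hεa : ε ≤ ε₁ / 2 := min_le_left _ _
  have hεb : ε ≤ ε₂ := (min_le_right _ _).trans (min_le_left _ _)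
  have hεc : ε ≤ 1 := (min_le_right _ _).trans (min_le_right _ _)
  -- the inputs
  obtain ⟨a, B, ha0, hB0, hSHELL⟩ := hSH c hc P q hP1 hq2 hq4 hqP hγ1
  obtain ⟨C0, Bu, hC01, hBu0, hBU⟩ := hU c hc
  obtain ⟨D, hD0, hD⟩ := dyad' hc hq2 hq4 hδ0.le hδ1 hc0 hc1 hγ1
  obtain ⟨Cn, hCn0, hnear⟩ := part_near hT hSL c hq2
  obtain ⟨CL, hCL0, hCL⟩ := num_lin (a := a1) (b := 7) (η := ε₁ / 2) (by linarith) (by norm_num)
    (by linarith)
  obtain ⟨CD, hCD0, hCD⟩ := num_decay (ε₁ / 2 + a1 * ((c:ℝ) + 2)) (κ := 2 * a / 9) (δ := δ)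
    (by positivity) hδ0
  obtain ⟨x0⟩ : Nonempty (S (c + 2)) := ⟨⟨e0 c, by simpa using (on_e c).hu⟩⟩
  -- large `N`
  have t1 := (tendsto_rpow_atTop (show 0 < 1 - δ by linarith)).eventually (eventually_ge_atTop (8 / c0))
  have t2 := (tendsto_rpow_atTop hδ0).eventually (eventually_ge_atTop (9 / (2 * a)))
  have t3 := (tendsto_rpow_atTop (show 0 < a1 - 1 by linarith)).eventually (eventually_ge_atTop (2 * C0))
  obtain ⟨X, hX⟩ := (((t1.and t2).and t3).and (eventually_ge_atTop 1)).exists_forall_of_atTop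
  have hX1 : 1 ≤ X := (hX X le_rfl).2
  set R : ℝ := 2 * (32 * ((c : ℝ) + 1) / c0) ^ (c + 1) with hR
  have hR0 : 0 < R := by rw [hR]; positivity
  set W : ℝ := (c0 / 16) ^ (s1 - γ) with hW
  have hW0 : 0 < W := by rw [hW]; positivity
  set CF : ℝ := 2 ^ q * q * (R ^ ((q - 2) / 2) * (2 * (Bu ^ (q / 2) / (γ - 1)))) * (1 / (q - 2)) with hCF
  have hCF0 : 0 < CF := by
    rw [hCF]
    have h1 : 0 < γ - 1 := by linarith
    have h2 : 0 < q - 2 := by linarith
    have h3 : 0 < q := by linarith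
    positivity
  set e' : ℝ := 1 - γ * (1 - δ) with he'
  set C : ℝ := 2 ^ ε * (Cn + CL * B * (W + CD) + CF) + D * (2 * X) ^ |e' + ε| with hC
  have hCpos : 0 < C := by
    rw [hC]
    have : 0 ≤ D * (2 * X) ^ |e' + ε| := by positivity
    positivity
  refine ⟨C, ε, hCpos, hε0, fun K hK g hgm hg2 hg j' => ?_⟩
  set G : ℝ≥0∞ := ∫⁻ y, ‖g y‖ₑ ^ q ∂(sg (c + 2)) with hG
  have small : (2:ℝ) ^ j' ≤ 2 * X → ∫⁻ ξ, ‖ft (blk (dj K j') g) ξ‖ₑ ^ q ≤
      ENNReal.ofReal (C * ((2 : ℝ) ^ j') ^ (-ε)) * G := by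
    intro hs
    refine (hD K hK g hgm hg2 hg j').trans (mul_le_mul' (ENNReal.ofReal_le_ofReal ?_) le_rfl)
    have h2j : (1:ℝ) ≤ 2 ^ j' := one_le_pow₀ (by norm_num)
    have h2j0 : (0:ℝ) < 2 ^ j' := by positivity
    have e1 : ((2:ℝ) ^ j') ^ e' = ((2:ℝ) ^ j') ^ (e' + ε) * ((2:ℝ) ^ j') ^ (-ε) := by
      rw [← Real.rpow_add h2j0]
      congr 1; ring
    have e2 : ((2:ℝ) ^ j') ^ (e' + ε) ≤ (2 * X) ^ |e' + ε| :=
      (Real.rpow_le_rpow_of_exponent_le h2j (le_abs_self _)).trans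
        (Real.rpow_le_rpow h2j0.le hs (abs_nonneg _))
    have e3 : D * ((2:ℝ) ^ j') ^ e' ≤ D * (2 * X) ^ |e' + ε| * ((2:ℝ) ^ j') ^ (-ε) := by
      rw [e1, mul_assoc]
      exact mul_le_mul_of_nonneg_left (mul_le_mul_of_nonneg_right e2 (by positivity)) hD0
    refine e3.trans (mul_le_mul_of_nonneg_right ?_ (by positivity))
    rw [hC]
    have : 0 ≤ 2 ^ ε * (Cn + CL * B * (W + CD) + CF) := by positivity
    linarith
  cases j' with
  | zero =>
    apply small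
    rw [pow_zero]
    linarith
  | succ j =>
  by_cases hjX : (2:ℝ) ^ j < X
  · apply small
    rw [pow_succ]
    linarith
  push Not at hjX
  -- the main case
  set N : ℕ := 2 ^ j with hN
  have hNr : ((N : ℕ) : ℝ) = 2 ^ j := by rw [hN]; push_cast; rfl
  have hN1 : 1 ≤ N := Nat.one_le_pow _ _ (by norm_num)
  set x : ℝ := (N : ℝ) with hx
  have hx1 : 1 ≤ x := by rw [hx]; exact_mod_cast hN1
  have hx0 : 0 < x := by linarith
  obtain ⟨⟨⟨hy1, hy2⟩, hy3⟩, -⟩ := hX x (by rw [hNr]; exact hjX)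
  have hxd : 0 < x ^ (1 - δ) := by positivity
  have hy1' : 8 ≤ c0 * x ^ (1 - δ) := by
    rw [div_le_iff₀ hc0] at hy1; linarith
  set m : ℕ := ⌊c0 * x ^ (1 - δ) / 8⌋₊ with hm
  have hm1 : (m : ℝ) ≤ c0 * x ^ (1 - δ) / 8 := Nat.floor_le (by positivity)
  have hm2 : c0 * x ^ (1 - δ) / 8 ≤ (m : ℝ) + 1 := (Nat.lt_floor_add_one _).le
  have hmge : 1 ≤ m := by
    rw [hm, Nat.one_le_floor_iff]
    linarith
  have hmge' : (1:ℝ) ≤ m := by exact_mod_cast hmge
  have hm3 : c0 / 16 * x ^ (1 - δ) ≤ m := by linarith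
  have hNd : x ^ (1 - δ) ≤ x := by
    calc x ^ (1 - δ) ≤ x ^ (1:ℝ) := Real.rpow_le_rpow_of_exponent_le hx1 (by linarith)
      _ = x := Real.rpow_one _
  have hmN : m ≤ N := by
    have : (m : ℝ) ≤ N := by
      have h1 : c0 * x ^ (1 - δ) ≤ 1 * x := mul_le_mul hc1 hNd hxd.le (by norm_num)
      linarith
    exact_mod_cast this
  have hmx : (m : ℝ) * x ^ δ ≤ x / 8 := by
    have h1 : (m : ℝ) ≤ x ^ (1 - δ) / 8 := by
      have : c0 * x ^ (1 - δ) ≤ 1 * x ^ (1 - δ) := mul_le_mul_of_nonneg_right hc1 hxd.le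
      linarith
    have h2 : (m : ℝ) * x ^ δ ≤ x ^ (1 - δ) / 8 * x ^ δ :=
      mul_le_mul_of_nonneg_right h1 (by positivity)
    have h3 : x ^ (1 - δ) / 8 * x ^ δ = x / 8 := by
      rw [div_mul_eq_mul_div, ← Real.rpow_add hx0]
      simp
    linarith
  have hJ : ∀ k ∈ dj K (j + 1), k ∈ K ∧ N ≤ k ∧ k < 2 * N := by
    intro k hk
    unfold dj at hk
    simp only [Finset.mem_filter, Finset.mem_Ico] at hk
    refine ⟨hk.2, hk.1.1, ?_⟩
    have := hk.1.2
    rw [pow_succ] at this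
    omega
  have hsepa : Sepa K (dj K (j + 1)) m := by
    refine ⟨fun k hk => (hJ k hk).1, fun k hk k' hk' hne => ?_⟩
    obtain ⟨h3, h4, h5⟩ := hJ k' hk'
    rcases lt_or_gt_of_ne hne with h | h
    · exact Or.inl (sep_dyadic hc0 hc1 hδ0.le hδ1 hK hN1 hm1 hk h3 h (Or.inr h4))
    · exact Or.inr (sep_dyadic hc0 hc1 hδ0.le hδ1 hK hN1 hm1 h3 hk h (Or.inl h4))
  set u : E (c + 2) → ℂ := ft (blk (dj K (j + 1)) g) with hu
  have huc : Continuous u := ft_cont (int_cc (blk_cont _ g))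
  have hum : Measurable fun ξ => ‖u ξ‖ₑ ^ q := huc.measurable.enorm.pow_const q
  set R0 : ℝ := x / 36 with hR0d
  have hR00 : 0 < R0 := by rw [hR0d]; positivity
  set R1 : ℝ := x ^ a1 with hR1d
  have hR10 : 0 < R1 := by rw [hR1d]; positivity
  set I : ℕ := ⌈a1 * j⌉₊ + 6 with hId
  have hI1 : R1 < 2 ^ I * R0 := by
    have h1 : a1 * j ≤ (⌈a1 * (j:ℝ)⌉₊ : ℝ) := Nat.le_ceil _
    have h2 : R1 = (2:ℝ) ^ (a1 * j) := by
      rw [hR1d, hNr, ← Real.rpow_natCast, ← Real.rpow_mul (by norm_num), mul_comm]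
    have h3 : (2:ℝ) ^ (a1 * (j:ℝ)) ≤ (2:ℝ) ^ (⌈a1 * (j:ℝ)⌉₊ : ℕ) := by
      rw [← Real.rpow_natCast]
      exact Real.rpow_le_rpow_of_exponent_le (by norm_num) h1
    rw [hId, pow_add, h2, hR0d]
    have h4 : (0:ℝ) < 2 ^ ⌈a1 * (j:ℝ)⌉₊ := by positivity
    have h5 : (2:ℝ) ^ ⌈a1 * (j:ℝ)⌉₊ < 2 ^ ⌈a1 * (j:ℝ)⌉₊ * 2 ^ 6 * (x / 36) := by
      have : (2:ℝ) ^ 6 * (x / 36) > 1 := by
        norm_num
        linarith
      nlinarith
    linarith
  have hI2 : (I : ℝ) ≤ CL * x ^ (ε₁ / 2) := by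
    have h1 := hCL j
    rw [hNr]
    refine le_trans ?_ h1
    rw [hId]
    push_cast
    have h2 := (Nat.ceil_lt_add_one (show 0 ≤ a1 * (j:ℝ) by positivity)).le
    linarith
  -- near
  have p1 : ∫⁻ ξ in ball 0 R0, ‖u ξ‖ₑ ^ q ≤ ENNReal.ofReal (Cn * x ^ (-ε)) * G := by
    refine (hnear N (dj K (j + 1)) hN1 (fun k hk => (hJ k hk).2.1) g hg2).trans
      (mul_le_mul' (ENNReal.ofReal_le_ofReal ?_) le_rfl)
    apply mul_le_mul_of_nonneg_left _ hCn0.le
    exact Real.rpow_le_rpow_of_exponent_le hx1 (by linarith)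
  -- shells
  set b2 : ℝ := B * (W * x ^ (-ε₁) + x ^ (a1 * ((c:ℝ) + 2)) * (2:ℝ) ^ (-(2 * a / 9 * x ^ δ))) with hb2
  have hb20 : 0 ≤ b2 := by rw [hb2]; positivity
  have p2 : ∀ i ∈ (Finset.range I).filter (fun i => (2:ℝ) ^ i * R0 ≤ R1),
      ∫⁻ ξ in Sh (c + 2) (2 ^ i * R0), ‖u ξ‖ₑ ^ q ≤ ENNReal.ofReal b2 * G := by
    intro i hi
    have hi2 := (Finset.mem_filter.1 hi).2
    set T : ℝ := 2 ^ i * R0 with hTd
    have hTR : R0 ≤ T := by
      have : (1:ℝ) ≤ 2 ^ i := one_le_pow₀ (by norm_num)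
      rw [hTd]; nlinarith
    have hT0 : 0 < T := by linarith
    have hy2' : 9 ≤ 2 * a * x ^ δ := by
      rw [div_le_iff₀ (by positivity)] at hy2; linarith
    have haT : (m : ℝ) ≤ a * T := by
      have h1 : (m : ℝ) * 9 ≤ m * (2 * a * x ^ δ) := mul_le_mul_of_nonneg_left hy2' (by positivity)
      have h2 : (m : ℝ) * (2 * a * x ^ δ) = 2 * a * (m * x ^ δ) := by ring
      have h3 : 2 * a * (m * x ^ δ) ≤ 2 * a * (x / 8) := mul_le_mul_of_nonneg_left hmx (by positivity)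
      have h4 : a * R0 ≤ a * T := mul_le_mul_of_nonneg_left hTR ha0.le
      rw [hR0d] at h4
      linarith
    refine (hSHELL K (dj K (j + 1)) m hsepa hmge g hgm hg2 hg T haT).trans
      (mul_le_mul' (ENNReal.ofReal_le_ofReal ?_) le_rfl)
    rw [hsP, hb2]
    apply mul_le_mul_of_nonneg_left _ hB0.le
    apply add_le_add
    · have h1 : T ^ (1 - s1) ≤ x ^ (a1 * (1 - s1)) := by
        refine (Real.rpow_le_rpow hT0.le hi2 (by linarith)).trans (le_of_eq ?_)
        rw [hR1d, ← Real.rpow_mul hx0.le]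
      have h2 : (m : ℝ) ^ (s1 - γ) ≤ W * x ^ ((1 - δ) * (s1 - γ)) := by
        refine (Real.rpow_le_rpow_of_nonpos (by positivity) hm3 (by linarith)).trans (le_of_eq ?_)
        rw [Real.mul_rpow (by positivity) hxd.le, ← Real.rpow_mul hx0.le, hW]
      calc T ^ (1 - s1) * (m : ℝ) ^ (s1 - γ) ≤ x ^ (a1 * (1 - s1)) * (W * x ^ ((1 - δ) * (s1 - γ))) :=
            mul_le_mul h1 h2 (by positivity) (by positivity)
        _ = W * (x ^ (a1 * (1 - s1)) * x ^ ((1 - δ) * (s1 - γ))) := by ring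
        _ = _ := by
            rw [← Real.rpow_add hx0]
            congr 2
            rw [hε₁]; ring
    · apply mul_le_mul _ _ (by positivity) (by positivity)
      · refine (Real.rpow_le_rpow hT0.le hi2 (by linarith)).trans (le_of_eq ?_)
        rw [hR1d, ← Real.rpow_mul hx0.le]
      · apply Real.rpow_le_rpow_of_exponent_le (by norm_num)
        rw [neg_le_neg_iff, le_div_iff₀ (by linarith)]
        have h1 : 2 * a / 9 * x ^ δ * m = 2 * a / 9 * (m * x ^ δ) := by ring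
        have h3 : 2 * a / 9 * (m * x ^ δ) ≤ 2 * a / 9 * (x / 8) :=
          mul_le_mul_of_nonneg_left hmx (by positivity)
        have h4 : a * R0 ≤ a * T := mul_le_mul_of_nonneg_left hTR ha0.le
        rw [hR0d] at h4
        linarith
  have p2' : ∑ i ∈ (Finset.range I).filter (fun i => (2:ℝ) ^ i * R0 ≤ R1),
      ∫⁻ ξ in Sh (c + 2) (2 ^ i * R0), ‖u ξ‖ₑ ^ q ≤
      ENNReal.ofReal (CL * B * (W + CD) * x ^ (-ε)) * G := by
    refine (Finset.sum_le_sum p2).trans ?_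
    rw [Finset.sum_const, nsmul_eq_mul, ← mul_assoc]
    refine mul_le_mul' ?_ le_rfl
    have h1 : (((Finset.range I).filter (fun i => (2:ℝ) ^ i * R0 ≤ R1)).card : ℝ≥0∞) ≤
        ENNReal.ofReal (CL * x ^ (ε₁ / 2)) := by
      rw [← ENNReal.ofReal_natCast]
      apply ENNReal.ofReal_le_ofReal
      refine le_trans ?_ hI2
      have h2 := Finset.card_filter_le (Finset.range I) (fun i => (2:ℝ) ^ i * R0 ≤ R1)
      rw [Finset.card_range] at h2
      exact_mod_cast h2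
    refine (mul_le_mul' h1 le_rfl).trans ?_
    rw [← ENNReal.ofReal_mul (by positivity)]
    apply ENNReal.ofReal_le_ofReal
    have h3 : x ^ (ε₁ / 2) * x ^ (-ε₁) ≤ x ^ (-ε) := by
      rw [← Real.rpow_add hx0]
      exact Real.rpow_le_rpow_of_exponent_le hx1 (by linarith)
    have h4 : x ^ (ε₁ / 2) * (x ^ (a1 * ((c:ℝ) + 2)) * (2:ℝ) ^ (-(2 * a / 9 * x ^ δ))) ≤
        CD * x ^ (-ε) := by
      rw [← mul_assoc, ← Real.rpow_add hx0]
      refine (hCD x hx1).trans (mul_le_mul_of_nonneg_left ?_ hCD0.le)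
      exact Real.rpow_le_rpow_of_exponent_le hx1 (by linarith)
    calc CL * x ^ (ε₁ / 2) * b2 = CL * B * (W * (x ^ (ε₁ / 2) * x ^ (-ε₁)) +
          x ^ (ε₁ / 2) * (x ^ (a1 * ((c:ℝ) + 2)) * (2:ℝ) ^ (-(2 * a / 9 * x ^ δ)))) := by
          rw [hb2]; ring
      _ ≤ CL * B * (W * x ^ (-ε) + CD * x ^ (-ε)) := by
          apply mul_le_mul_of_nonneg_left _ (by positivity)
          exact add_le_add (mul_le_mul_of_nonneg_left h3 hW0.le) h4
      _ = _ := by ring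
  -- far
  have p3 : ∫⁻ ξ in {ξ | R1 < ‖ξ‖}, ‖u ξ‖ₑ ^ q ≤ ENNReal.ofReal (CF * x ^ (-ε)) * G := by
    have hkk : ∀ k ∈ dj K (j + 1), C0 * ((k : ℝ) + 1) ≤ R1 := by
      intro k hk
      obtain ⟨h3, h4, h5⟩ := hJ k hk
      have h6 : (k : ℝ) + 1 ≤ 2 * x := by
        have : k + 1 ≤ 2 * N := by omega
        rw [hx]
        exact_mod_cast this
      have h7 : R1 = x ^ (a1 - 1) * x := by
        rw [hR1d, ← Real.rpow_add_one hx0.ne']
        congr 1; ring
      rw [h7]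
      have h8 : C0 * ((k:ℝ) + 1) ≤ C0 * (2 * x) := mul_le_mul_of_nonneg_left h6 (by linarith)
      have h9 : 2 * C0 * x ≤ x ^ (a1 - 1) * x := mul_le_mul_of_nonneg_right hy3 hx0.le
      linarith
    have hγ1' : 0 < γ - 1 := by linarith
    have h1 := hF c K (dj K (j + 1)) m (3 * N) hsepa (fun k hk => by
        obtain ⟨h3, h4, h5⟩ := hJ k hk
        omega) q (Bu ^ (q / 2) * (R1 ^ (1 - γ) / (γ - 1))) (zs (c + 2) m x0)
      (zs (c + 2) (3 * N) x0) R1 hq2 (by positivity) hR10.le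
      (fun k hk => far_int hq2 hBu0 hγ1 hBU hR10 (hkk k hk))
      (zs_pos m x0) (fun y => zs_const m y x0) (zs_pos (3 * N) x0) (fun y => zs_const (3 * N) y x0)
      g hgm hg2 hg
    refine h1.trans (mul_le_mul' (ENNReal.ofReal_le_ofReal ?_) le_rfl)
    have h6 := ratio2 (c := c) hc0 hN1 hm2 x0
    have h7 : (zs (c + 2) (3 * N) x0 / zs (c + 2) m x0) ^ ((q - 2) / 2) ≤
        R ^ ((q - 2) / 2) * x ^ (δ * γ) := by
      refine (Real.rpow_le_rpow (div_nonneg (zs_pos _ _).le (zs_pos _ _).le) h6 (by linarith)).trans ?_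
      rw [Real.mul_rpow hR0.le (by positivity)]
      apply le_of_eq
      congr 1
      rw [← Real.rpow_natCast, ← Real.rpow_mul hx0.le, ← Real.rpow_mul hx0.le]
      congr 1
      rw [hγd]
      unfold sc
      push_cast
      ring
    have hRR : R1 ^ (1 - γ) = x ^ (a1 * (1 - γ)) := by
      rw [hR1d, ← Real.rpow_mul hx0.le]
    have h8 : x ^ (δ * γ) * x ^ (a1 * (1 - γ)) ≤ x ^ (-ε) := by
      rw [← Real.rpow_add hx0]
      apply Real.rpow_le_rpow_of_exponent_le hx1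
      have : δ * γ + a1 * (1 - γ) = -ε₂ := by rw [hε₂]; ring
      linarith
    have hq20 : 0 < q - 2 := by linarith
    have hqq0 : 0 < q := by linarith
    calc 2 ^ q * q * ((zs (c + 2) (3 * N) x0 / zs (c + 2) m x0) ^ ((q - 2) / 2) *
          (2 * (Bu ^ (q / 2) * (R1 ^ (1 - γ) / (γ - 1))))) * (1 / (q - 2)) ≤
        2 ^ q * q * ((R ^ ((q - 2) / 2) * x ^ (δ * γ)) *
          (2 * (Bu ^ (q / 2) * (R1 ^ (1 - γ) / (γ - 1))))) * (1 / (q - 2)) := by gcongr
      _ = CF * (x ^ (δ * γ) * x ^ (a1 * (1 - γ))) := by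
          rw [hCF, hRR]; ring
      _ ≤ _ := mul_le_mul_of_nonneg_left h8 hCF0.le
  -- conclusion
  have hcov := cover hum hR00 hI1
  refine hcov.trans ((add_le_add (add_le_add p1 p2') p3).trans ?_)
  rw [← add_mul, ← add_mul, ← ENNReal.ofReal_add (by positivity) (by positivity),
    ← ENNReal.ofReal_add (by positivity) (by positivity)]
  refine mul_le_mul' (ENNReal.ofReal_le_ofReal ?_) le_rfl
  have h2j : ((2:ℝ) ^ (j + 1)) ^ (-ε) = x ^ (-ε) * 2 ^ (-ε) := by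
    rw [hNr, pow_succ, Real.mul_rpow (by positivity) (by norm_num)]
  have h22 : (2:ℝ) ^ ε * 2 ^ (-ε) = 1 := by
    rw [← Real.rpow_add (by norm_num), add_neg_cancel, Real.rpow_zero]
  rw [h2j]
  have h5 : 0 ≤ D * (2 * X) ^ |e' + ε| * (x ^ (-ε) * 2 ^ (-ε)) := by positivity
  have h6 : C * (x ^ (-ε) * 2 ^ (-ε)) = (Cn + CL * B * (W + CD) + CF) * x ^ (-ε) *
      ((2:ℝ) ^ ε * 2 ^ (-ε)) + D * (2 * X) ^ |e' + ε| * (x ^ (-ε) * 2 ^ (-ε)) := by
    rw [hC]; ring
  rw [h6, h22, mul_one]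
  have h7 : Cn * x ^ (-ε) + CL * B * (W + CD) * x ^ (-ε) + CF * x ^ (-ε) =
      (Cn + CL * B * (W + CD) + CF) * x ^ (-ε) := by ring
  linarith

end Pool.Agent.N303.SJ
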