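import Pool.Agent.N303.SJ.Stm

set_option autoImplicit false

/-! The final sum over the dyadic blocks. -/

open MeasureTheory Metric Set Filter Topology Measure
open scoped ENNReal RealInnerProductSpace Pointwise NNReal

namespace Pool.Agent.N303.SJ

open Pool.Agent.N303.SH

variable {c : ℕ}

theorem all_blocks' (hB : S_BLK) (hc : 1 ≤ c) {q δ c0 : ℝ} (hq2 : 2 < q)
    (hq4 : q < 2 + 4 / ((c : ℝ) + 1)) (hδ0 : 0 < δ) (hδ1 : δ < 1)
    (hc0 : 0 < c0) (hc1 : c0 ≤ 1) (hη : 1 + δ < sc c * (q - 2)) :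
    ∃ C : ℝ, 0 ≤ C ∧ ∀ (K : Set ℕ), Sparse δ c0 K → ∀ g : S (c + 2) → ℂ, Measurable g →
      MemLp g 2 (sg (c + 2)) → Deg K g → ∫⁻ ξ, ‖ft g ξ‖ₑ ^ q ≤
        ENNReal.ofReal C * ∫⁻ y, ‖g y‖ₑ ^ q ∂(sg (c + 2)) := by
  obtain ⟨C, ε, hC0', hε, hC⟩ := hB c hc q δ c0 hq4 hδ0 hδ1 hc0 hc1 hη
  have hC0 : 0 ≤ C := hC0'.le
  have hq0 : 0 < q := by linarith
  set e := -ε with he
  have he0 : e < 0 := by rw [he]; linarith
  set r : ℝ := (2:ℝ) ^ (e / q) with hr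
  have hr0 : 0 < r := by positivity
  have hr1 : r < 1 := Real.rpow_lt_one_of_one_lt_of_neg (by norm_num) (div_neg_of_neg_of_pos he0 hq0)
  have hsum : HasSum (fun j : ℕ => C ^ (1 / q) * r ^ j) (C ^ (1 / q) * (1 - r)⁻¹) :=
    (hasSum_geometric_of_lt_one hr0.le hr1).mul_left _
  set A : ℝ := C ^ (1 / q) * (1 - r)⁻¹ with hA
  have hA0 : 0 ≤ A := by
    have : 0 < (1 - r)⁻¹ := by
      apply inv_pos.2; linarith
    positivity
  refine ⟨A ^ q, by positivity, fun K hK g hgm hg2 hg => ?_⟩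
  set G : ℝ≥0∞ := ∫⁻ y, ‖g y‖ₑ ^ q ∂(sg (c + 2)) with hG
  have hm : ∀ j, Measurable fun ξ : E (c + 2) => ‖ft (blk (dj K j) g) ξ‖ₑ := fun j =>
    (ft_cont (int_cc (blk_cont _ g))).measurable.enorm
  calc ∫⁻ ξ, ‖ft g ξ‖ₑ ^ q ≤ ∫⁻ ξ, (∑' j, ‖ft (blk (dj K j) g) ξ‖ₑ) ^ q := by
        apply lintegral_mono
        intro ξ
        exact ENNReal.rpow_le_rpow (ft_le_tsum hg2 hg ξ) hq0.le
    _ ≤ (∑' j, (∫⁻ ξ, ‖ft (blk (dj K j) g) ξ‖ₑ ^ q) ^ (1 / q)) ^ q :=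
        mink volume q (by linarith) _ hm
    _ ≤ (∑' j : ℕ, ENNReal.ofReal (C ^ (1 / q) * r ^ j) * G ^ (1 / q)) ^ q := by
        apply ENNReal.rpow_le_rpow _ hq0.le
        apply ENNReal.tsum_le_tsum
        intro j
        refine (ENNReal.rpow_le_rpow (hC K hK g hgm hg2 hg j) (by positivity)).trans (le_of_eq ?_)
        rw [ENNReal.mul_rpow_of_nonneg _ _ (by positivity), ENNReal.ofReal_rpow_of_nonneg (by positivity)
          (by positivity)]
        congr 2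
        rw [Real.mul_rpow hC0 (by positivity), ← Real.rpow_natCast 2 j, ← Real.rpow_mul (by norm_num),
          ← Real.rpow_mul (by norm_num), hr, ← Real.rpow_natCast, ← Real.rpow_mul (by norm_num)]
        congr 2
        field_simp
    _ = (ENNReal.ofReal A * G ^ (1 / q)) ^ q := by
        rw [ENNReal.tsum_mul_right, ← ENNReal.ofReal_tsum_of_nonneg (fun j => by positivity)
          hsum.summable, hsum.tsum_eq]
    _ = ENNReal.ofReal (A ^ q) * G := by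
        rw [ENNReal.mul_rpow_of_nonneg _ _ hq0.le, ENNReal.ofReal_rpow_of_nonneg hA0 hq0.le,
          ← ENNReal.rpow_mul, one_div_mul_cancel hq0.ne', ENNReal.rpow_one]


theorem Sparse.anti {δ δ' c0 : ℝ} {K : Set ℕ} (h : Sparse δ c0 K) (hc0 : 0 < c0) (hδ : δ ≤ δ')
    (hδ1 : δ' < 1) : Sparse δ' c0 K := by
  intro k hk k' hk' hlt
  have h2 := h k hk k' hk' hlt
  have h3 : (k : ℝ) ^ (1 - δ') ≤ (k : ℝ) ^ (1 - δ) := by
    rcases Nat.eq_zero_or_pos k with h0 | h0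
    · rw [h0, Nat.cast_zero, Real.zero_rpow (by linarith), Real.zero_rpow (by linarith)]
    · exact Real.rpow_le_rpow_of_exponent_le (by exact_mod_cast h0) (by linarith)
  have h4 := mul_le_mul_of_nonneg_left h3 hc0.le
  linarith

theorem single' (hB : S_BLK) (hc : 1 ≤ c) {q δ c0 : ℝ} (hδ0 : 0 ≤ δ) (hδ1 : δ < 1) (hc0 : 0 < c0)
    (hq : 2 + 2 * (1 + δ) / ((c : ℝ) + 1) < q) :
    ∃ C : ℝ≥0, ∀ (K : Set ℕ), Sparse δ c0 K → ∀ g : S (c + 2) → ℂ,
      MemLp g (ENNReal.ofReal q) (sg (c + 2)) → Deg K g →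
      eLpNorm (ft g) (ENNReal.ofReal q) volume ≤ C * eLpNorm g (ENNReal.ofReal q) (sg (c + 2)) := by
  have hc' : (1:ℝ) ≤ c := by exact_mod_cast hc
  have hcp : (0:ℝ) < (c : ℝ) + 1 := by linarith
  have hq' : 2 * (1 + δ) < (q - 2) * ((c : ℝ) + 1) := by
    rw [← div_lt_iff₀ hcp]; linarith
  obtain ⟨δ', hδ'0, hδ'1⟩ : ∃ δ', δ < δ' ∧ δ' < min 1 ((q - 2) * ((c : ℝ) + 1) / 2 - 1) :=
    exists_between (lt_min hδ1 (by linarith))
  have hδ'2 : δ' < 1 := hδ'1.trans_le (min_le_left _ _)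
  have hδ'3 : δ' < (q - 2) * ((c : ℝ) + 1) / 2 - 1 := hδ'1.trans_le (min_le_right _ _)
  set q0 : ℝ := 2 + 2 * (1 + δ') / ((c : ℝ) + 1) with hq0
  have hq0q : q0 < q := by
    have : 2 * (1 + δ') / ((c : ℝ) + 1) < q - 2 := by
      rw [div_lt_iff₀ hcp]; linarith
    linarith
  have hq04 : q0 < 2 + 4 / ((c : ℝ) + 1) := by
    have : 2 * (1 + δ') / ((c : ℝ) + 1) < 4 / ((c : ℝ) + 1) :=
      div_lt_div_of_pos_right (by linarith) hcp
    linarith
  set q1 : ℝ := (q0 + min q (2 + 4 / ((c : ℝ) + 1))) / 2 with hq1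
  have hmin : q0 < min q (2 + 4 / ((c : ℝ) + 1)) := lt_min hq0q hq04
  have h01 : q0 < q1 := by rw [hq1]; linarith
  have h1m : q1 < min q (2 + 4 / ((c : ℝ) + 1)) := by rw [hq1]; linarith
  have h1q : q1 < q := h1m.trans_le (min_le_left _ _)
  have h14 : q1 < 2 + 4 / ((c : ℝ) + 1) := h1m.trans_le (min_le_right _ _)
  have h2u0 : 0 < 2 * (1 + δ') / ((c : ℝ) + 1) := div_pos (by linarith) hcp
  have h12 : 2 < q1 := by linarith
  have hη : 1 + δ' < sc c * (q1 - 2) := by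
    have h3 : 2 * (1 + δ') / ((c : ℝ) + 1) < q1 - 2 := by linarith
    rw [div_lt_iff₀ hcp] at h3
    unfold sc
    linarith
  obtain ⟨C1, hC10, hC1⟩ := all_blocks' hB hc h12 h14 (by linarith : 0 < δ') hδ'2
    (lt_min hc0 one_pos) (min_le_right _ _) hη
  set V : ℝ≥0∞ := sg (c + 2) univ with hV
  have hVt : V ≠ ∞ := measure_ne_top _ _
  have hV0 : V ≠ 0 := by
    have := V_pos c
    intro h
    rw [Measure.real, ← hV, h] at this
    simp at this
  set V1 : ℝ≥0∞ := V ^ (1 / 1 - 1 / q) with hV1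
  set V2 : ℝ≥0∞ := V ^ (1 / q1 - 1 / q) with hV2
  have hV1t : V1 ≠ ∞ := ENNReal.rpow_ne_top_of_ne_zero hV0 hVt
  have hV2t : V2 ≠ ∞ := ENNReal.rpow_ne_top_of_ne_zero hV0 hVt
  set W : ℝ≥0∞ := V1 ^ (q - q1) * (ENNReal.ofReal C1 * V2 ^ q1) with hW
  have hWt : W ≠ ∞ := by
    rw [hW]
    exact ENNReal.mul_ne_top (ENNReal.rpow_ne_top_of_nonneg (by linarith) hV1t)
      (ENNReal.mul_ne_top ENNReal.ofReal_ne_top (ENNReal.rpow_ne_top_of_nonneg (by linarith) hV2t))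
  have hqp : 0 < q := by linarith
  have hWt2 : W ^ (1 / q) ≠ ∞ := ENNReal.rpow_ne_top_of_nonneg (by positivity) hWt
  refine ⟨(W ^ (1 / q)).toNNReal, fun K hK g0 hg0 hdeg0 => ?_⟩
  rw [ENNReal.coe_toNNReal hWt2]
  set g := hg0.1.mk g0 with hg
  have hae : g0 =ᵐ[sg (c + 2)] g := hg0.1.ae_eq_mk
  have hgm : Measurable g := hg0.1.stronglyMeasurable_mk.measurable
  have hgL : MemLp g (ENNReal.ofReal q) (sg (c + 2)) := (memLp_congr_ae hae).1 hg0
  have hdeg : Deg K g := Deg.congr hae hdeg0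
  rw [ft_congr hae, eLpNorm_congr_ae hae]
  have hg2 : MemLp g 2 (sg (c + 2)) := by
    apply hgL.mono_exponent
    rw [show (2 : ℝ≥0∞) = ENNReal.ofReal 2 by norm_num]
    exact ENNReal.ofReal_le_ofReal (by linarith)
  have hgS : AEStronglyMeasurable g (sg (c + 2)) := hgL.1
  have hqe : (ENNReal.ofReal q) ≠ 0 := by
    rw [Ne, ENNReal.ofReal_eq_zero]; linarith
  rw [eLpNorm_eq_eLpNorm' hqe ENNReal.ofReal_ne_top, eLpNorm_eq_eLpNorm' hqe ENNReal.ofReal_ne_top,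
    ENNReal.toReal_ofReal hqp.le]
  set a := eLpNorm' g q (sg (c + 2)) with ha
  have b1 : ∀ ξ, ‖ft g ξ‖ₑ ≤ a * V1 := by
    intro ξ
    refine (ft_enorm_le g ξ).trans ?_
    have := eLpNorm'_le_eLpNorm'_mul_rpow_measure_univ (p := 1) (q := q) one_pos (by linarith) hgS
    refine le_trans (le_of_eq ?_) this
    unfold eLpNorm'
    simp
  have b2 : ∫⁻ y, ‖g y‖ₑ ^ q1 ∂(sg (c + 2)) ≤ (a * V2) ^ q1 := by
    have h3 := eLpNorm'_le_eLpNorm'_mul_rpow_measure_univ (p := q1) (q := q) (by linarith) h1q.le hgS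
    have h4 := ENNReal.rpow_le_rpow h3 (by linarith : 0 ≤ q1)
    refine le_trans (le_of_eq ?_) h4
    unfold eLpNorm'
    rw [← ENNReal.rpow_mul, one_div_mul_cancel (by linarith), ENNReal.rpow_one]
  have b3 : ∫⁻ ξ, ‖ft g ξ‖ₑ ^ q ≤ a ^ q * W := by
    calc ∫⁻ ξ, ‖ft g ξ‖ₑ ^ q = ∫⁻ ξ, ‖ft g ξ‖ₑ ^ (q - q1) * ‖ft g ξ‖ₑ ^ q1 := by
          apply lintegral_congr
          intro ξ
          rw [← ENNReal.rpow_add_of_nonneg _ _ (by linarith) (by linarith)]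
          congr 1
          ring
      _ ≤ ∫⁻ ξ, (a * V1) ^ (q - q1) * ‖ft g ξ‖ₑ ^ q1 := by
          apply lintegral_mono
          intro ξ
          exact mul_le_mul' (ENNReal.rpow_le_rpow (b1 ξ) (by linarith)) le_rfl
      _ = (a * V1) ^ (q - q1) * ∫⁻ ξ, ‖ft g ξ‖ₑ ^ q1 := by
          rw [lintegral_const_mul]
          exact (ft_cont (hgL.integrable (by
            rw [← ENNReal.ofReal_one]; exact ENNReal.ofReal_le_ofReal (by linarith)))).measurable.enorm.pow_const _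
      _ ≤ (a * V1) ^ (q - q1) * (ENNReal.ofReal C1 * (a * V2) ^ q1) := by
          refine mul_le_mul' le_rfl ?_
          exact (hC1 K (Sparse.anti (hK.mono (min_le_left _ _)) (lt_min hc0 one_pos) hδ'0.le hδ'2) g hgm hg2 hdeg).trans (mul_le_mul' le_rfl b2)
      _ = a ^ q * W := by
          rw [ENNReal.mul_rpow_of_nonneg _ _ (by linarith), ENNReal.mul_rpow_of_nonneg _ _ (by linarith),
            show a ^ q = a ^ (q - q1) * a ^ q1 by
              rw [← ENNReal.rpow_add_of_nonneg _ _ (by linarith) (by linarith)]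
              congr 1; ring, hW]
          ring
  have b4 := ENNReal.rpow_le_rpow b3 (by positivity : 0 ≤ 1 / q)
  rw [ENNReal.mul_rpow_of_nonneg _ _ (by positivity), ← ENNReal.rpow_mul, mul_one_div_cancel hqp.ne',
    ENNReal.rpow_one, mul_comm] at b4
  exact b4


end Pool.Agent.N303.SJ
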