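import Pool.Agent.N303.SJ.Blk
import Pool.Agent.N303.SJ.Fin
import Pool.Agent.N306.SJ.ST
import Pool.Agent.N755.SJ.TAY
import Pool.Agent.N301.SJ.SL
import Pool.Agent.N401.SJ.BESU
import Pool.Agent.N707.SJ.BESL
import Pool.Agent.N853.SJ.WB
import Pool.Agent.N901.SJ.BALL
import Pool.Agent.N951.SJ.Pk
import Pool.Agent.N395.SJ.Jen
import Pool.Agent.N123.SJ.PT
import Pool.Agent.N475.SJ.LOC
import Pool.Agent.N559.SJ.BB
import Pool.Agent.N265.SJ.Shell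
import Pool.Agent.N55.SJ.FAR

set_option autoImplicit false

/-! Assembly of project SJ. -/

namespace Pool.Agent.N303.SJ

theorem s_bb : S_BB := Pool.Agent.N559.SJ.t_bb Pool.Agent.N951.SJ.t_pk Pool.Agent.N395.SJ.t_jen
  Pool.Agent.N123.SJPT.t_pt (Pool.Agent.N475.SJ.t_loc Pool.Agent.N123.SJPT.t_pt)
  (Pool.Agent.N853.SJ.t_wb Pool.Agent.N401.SJ.t_besu)

theorem s_ball : S_BALL := Pool.Agent.N901.SJ.t_ball Pool.Agent.N306.SJ.t_st
  Pool.Agent.N755.SJ.t_tay Pool.Agent.N301.SJ.t_sl Pool.Agent.N707.SJ.t_besl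

theorem s_shell : S_SHELL := Pool.Agent.N265.SJ.t_shell s_ball s_bb Pool.Agent.N301.SJ.t_sl

theorem s_blk : S_BLK := t_blk Pool.Agent.N755.SJ.t_tay Pool.Agent.N301.SJ.t_sl s_shell
  Pool.Agent.N55.SJ.t_far Pool.Agent.N401.SJ.t_besu

end Pool.Agent.N303.SJ
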