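import Pool.Agent.N303.SJ.Stm

set_option autoImplicit false

/-! Numerical lemmas. -/

open MeasureTheory Metric Set Filter Topology Measure
open scoped ENNReal RealInnerProductSpace Pointwise NNReal

namespace Pool.Agent.N303.SJ

open Pool.Agent.N303.SH

lemma num_decay (A : ℝ) {κ δ : ℝ} (hκ : 0 < κ) (hδ : 0 < δ) : ∃ C : ℝ, 0 < C ∧ ∀ x : ℝ, 1 ≤ x →
    x ^ A * (2 : ℝ) ^ (-(κ * x ^ δ)) ≤ C * x ^ (-1 : ℝ) := by
  have hlog : 0 < Real.log 2 := Real.log_pos (by norm_num)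
  have h1 := tendsto_rpow_mul_exp_neg_mul_atTop_nhds_zero ((A + 1) / δ) (κ * Real.log 2)
    (by positivity)
  have h2 := h1.comp (tendsto_rpow_atTop hδ)
  have h3 : ∀ᶠ x : ℝ in atTop, (x ^ δ) ^ ((A + 1) / δ) * Real.exp (-(κ * Real.log 2) * x ^ δ) < 1 :=
    h2.eventually (gt_mem_nhds one_pos)
  obtain ⟨X, hX⟩ := (h3.and (eventually_ge_atTop 1)).exists_forall_of_atTop
  have hX1 : 1 ≤ X := (hX X le_rfl).2
  refine ⟨1 + X ^ |A + 1|, by positivity, fun x hx => ?_⟩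
  have hx0 : 0 < x := by linarith
  have e1 : x ^ A * (2 : ℝ) ^ (-(κ * x ^ δ)) = (x ^ (A + 1) * (2 : ℝ) ^ (-(κ * x ^ δ))) *
      x ^ (-1 : ℝ) := by
    rw [Real.rpow_add hx0, Real.rpow_one, Real.rpow_neg_one]
    field_simp
  rw [e1]
  apply mul_le_mul_of_nonneg_right _ (by positivity)
  have e2 : (2 : ℝ) ^ (-(κ * x ^ δ)) = Real.exp (-(κ * Real.log 2) * x ^ δ) := by
    rw [Real.rpow_def_of_pos (by norm_num)]
    congr 1
    ring
  have e3 : (x ^ δ) ^ ((A + 1) / δ) = x ^ (A + 1) := by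
    rw [← Real.rpow_mul hx0.le]
    congr 1
    field_simp
  by_cases h : X ≤ x
  · have h4 := (hX x h).1
    rw [e3, ← e2] at h4
    have : 0 ≤ X ^ |A + 1| := by positivity
    linarith
  · push Not at h
    have h5 : x ^ (A + 1) ≤ X ^ |A + 1| :=
      (Real.rpow_le_rpow_of_exponent_le hx (le_abs_self _)).trans
        (Real.rpow_le_rpow hx0.le h.le (abs_nonneg _))
    have h6 : (2 : ℝ) ^ (-(κ * x ^ δ)) ≤ 1 := by
      apply Real.rpow_le_one_of_one_le_of_nonpos (by norm_num)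
      have : 0 ≤ κ * x ^ δ := by positivity
      linarith
    have h7 : x ^ (A + 1) * (2 : ℝ) ^ (-(κ * x ^ δ)) ≤ X ^ |A + 1| * 1 :=
      mul_le_mul h5 h6 (by positivity) (by positivity)
    linarith

lemma num_lin {a b η : ℝ} (ha : 0 ≤ a) (hb : 0 ≤ b) (hη : 0 < η) : ∃ C : ℝ, 0 < C ∧ ∀ j : ℕ,
    a * j + b ≤ C * ((2 : ℝ) ^ j) ^ η := by
  set r : ℝ := (2 : ℝ) ^ η with hr
  have hr1 : 1 < r := Real.one_lt_rpow (by norm_num) hη
  have hr0 : 0 < r - 1 := by linarith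
  refine ⟨a / (r - 1) + b + 1, by positivity, fun j => ?_⟩
  have e1 : ((2 : ℝ) ^ j) ^ η = r ^ j := by
    rw [hr, ← Real.rpow_natCast, ← Real.rpow_natCast, ← Real.rpow_mul (by norm_num),
      ← Real.rpow_mul (by norm_num), mul_comm]
  rw [e1]
  have h1 := one_add_mul_le_pow (a := r - 1) (by linarith) j
  rw [show 1 + (r - 1) = r by ring] at h1
  have h2 : (1 : ℝ) ≤ r ^ j := one_le_pow₀ hr1.le
  have h3 : (j : ℝ) * (r - 1) ≤ r ^ j := by linarith
  have h4 : (j : ℝ) ≤ r ^ j / (r - 1) := by rwa [le_div_iff₀ hr0]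
  have h5 : a * j ≤ a * (r ^ j / (r - 1)) := mul_le_mul_of_nonneg_left h4 ha
  have h6 : a * (r ^ j / (r - 1)) = a / (r - 1) * r ^ j := by ring
  have h7 : b ≤ b * r ^ j := by nlinarith
  have h8 : 0 ≤ r ^ j := by positivity
  nlinarith

/-- Hölder -/
lemma holder2 {n : ℕ} {q : ℝ} (hq : 2 < q) {g : S n → ℂ} (hg2 : MemLp g 2 (sg n)) :
    ENNReal.ofReal (N2 g) ^ (q / 2) ≤ (sg n univ) ^ (q / 2 - 1) * ∫⁻ y, ‖g y‖ₑ ^ q ∂(sg n) := by
  have h1 := eLpNorm'_le_eLpNorm'_mul_rpow_measure_univ (p := 2) (q := q) (by norm_num) hq.le hg2.1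
  have e1 : ENNReal.ofReal (N2 g) = ∫⁻ y, ‖g y‖ₑ ^ (2 : ℝ) ∂(sg n) := by
    unfold N2
    rw [ofReal_integral_eq_lintegral_ofReal]
    · apply lintegral_congr
      intro y
      rw [← ofReal_norm, ENNReal.ofReal_rpow_of_nonneg (norm_nonneg _) (by norm_num)]
      congr 1
      rw [← Real.rpow_natCast]
      norm_num
    · exact (memLp_two_iff_integrable_sq_norm hg2.1).1 hg2
    · exact Eventually.of_forall fun y => by positivity
  have h2 := ENNReal.rpow_le_rpow h1 (by linarith : 0 ≤ q)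
  have e2 : eLpNorm' g 2 (sg n) ^ q = ENNReal.ofReal (N2 g) ^ (q / 2) := by
    unfold eLpNorm'
    rw [e1, ← ENNReal.rpow_mul]
    congr 1
    ring
  rw [e2] at h2
  refine h2.trans (le_of_eq ?_)
  rw [ENNReal.mul_rpow_of_nonneg _ _ (by linarith), ← ENNReal.rpow_mul]
  unfold eLpNorm'
  rw [← ENNReal.rpow_mul, one_div_mul_cancel (by linarith), ENNReal.rpow_one, mul_comm]
  congr 2
  have : q ≠ 0 := by linarith
  field_simp

end Pool.Agent.N303.SJ
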