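import Pool.Agent.N303.SJ.Num

set_option autoImplicit false

/-! The three regions. -/

open MeasureTheory Metric Set Filter Topology Measure
open scoped ENNReal RealInnerProductSpace Pointwise NNReal

namespace Pool.Agent.N303.SJ

open Pool.Agent.N303.SH

variable {c : ℕ}

lemma Deg_blk (hSL : S_SL) {J : Finset ℕ} {L : ℕ} (hJ : ∀ k ∈ J, L ≤ k) {g : S (c + 2) → ℂ}
    (hg : MemLp g 2 (sg (c + 2))) : Deg {l | L ≤ l} (blk J g) := by
  intro k hk i
  have hkJ : k ∉ J := fun h => hk (hJ k h)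
  have hgi : Integrable g (sg (c + 2)) := hg.integrable (by norm_num)
  have e1 : ∀ y, (e (c + 2) k i y : ℂ) * blk J g y = ∑ l ∈ J, ∑ i',
      (∫ y, (e (c + 2) l i' y : ℂ) * g y ∂(sg (c + 2))) *
        ((e (c + 2) k i y * e (c + 2) l i' y : ℝ) : ℂ) := by
    intro y
    unfold blk cp
    rw [Finset.mul_sum]
    refine Finset.sum_congr rfl fun l _ => ?_
    rw [Finset.mul_sum]
    refine Finset.sum_congr rfl fun i' _ => ?_
    push_cast
    ring
  simp only [e1]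
  have hint : ∀ l i', Integrable (fun y => (∫ y, (e (c + 2) l i' y : ℂ) * g y ∂(sg (c + 2))) *
        ((e (c + 2) k i y * e (c + 2) l i' y : ℝ) : ℂ)) (sg (c + 2)) := by
    intro l i'
    apply Integrable.const_mul
    exact (int_mul (e (c + 2) k i) (e (c + 2) l i')).ofReal
  rw [integral_finsetSum _ fun l _ => integrable_finsetSum _ fun i' _ => hint l i']
  refine Finset.sum_eq_zero fun l hl => ?_
  rw [integral_finsetSum _ fun i' _ => hint l i']
  refine Finset.sum_eq_zero fun i' _ => ?_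
  rw [integral_const_mul]
  have h2 : ∫ y, ((e (c + 2) k i y * e (c + 2) l i' y : ℝ) : ℂ) ∂(sg (c + 2)) = 0 := by
    rw [integral_complex_ofReal]
    have h3 : ∫ y, e (c + 2) k i y * e (c + 2) l i' y ∂(sg (c + 2)) = 0 :=
      e_ne (k := k) (l := l) (fun h => hkJ (by rw [h]; exact hl)) i i'
    rw [h3, Complex.ofReal_zero]
  rw [h2, mul_zero]

/-- near the origin -/
lemma part_near (hT : S_TAY) (hSL : S_SL) (c : ℕ) {q : ℝ} (hq : 2 < q) :
    ∃ C : ℝ, 0 < C ∧ ∀ (N : ℕ) (J : Finset ℕ), 1 ≤ N → (∀ k ∈ J, N ≤ k) → ∀ g : S (c + 2) → ℂ,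
      MemLp g 2 (sg (c + 2)) →
      ∫⁻ x in ball 0 ((N : ℝ) / 36), ‖ft (blk J g) x‖ₑ ^ q ≤
        ENNReal.ofReal (C * (N : ℝ) ^ (-1 : ℝ)) * ∫⁻ y, ‖g y‖ₑ ^ q ∂(sg (c + 2)) := by
  obtain ⟨C1, hC1, hC⟩ := num_decay ((c : ℝ) + 2) (κ := 1) (δ := 1) one_pos one_pos
  set V : ℝ := (sg (c + 2)).real univ with hV
  have hVp : 0 < V := V_pos c
  set v : ℝ≥0∞ := volume (ball (0 : E (c + 2)) 1) with hv
  have hvt : v ≠ ∞ := measure_ball_lt_top.ne
  set W : ℝ≥0∞ := v * (ENNReal.ofReal V ^ (q / 2) * (sg (c + 2) univ) ^ (q / 2 - 1)) with hW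
  have hWt : W ≠ ∞ := by
    rw [hW]
    refine ENNReal.mul_ne_top hvt (ENNReal.mul_ne_top ?_ ?_)
    · exact ENNReal.rpow_ne_top_of_nonneg (by linarith) ENNReal.ofReal_ne_top
    · exact ENNReal.rpow_ne_top_of_nonneg (by linarith) (measure_ne_top _ _)
  refine ⟨C1 * (W.toReal + 1), by positivity, fun N J hN hJ g hg => ?_⟩
  have hN0 : (0 : ℝ) < N := by exact_mod_cast hN
  have hN1 : (1 : ℝ) ≤ N := by exact_mod_cast hN
  obtain ⟨s1, s2, -⟩ := hSL c g hg J
  have hbc : Continuous (blk J g) := blk_cont J g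
  have hbL : MemLp (blk J g) 2 (sg (c + 2)) := by
    refine (memLp_two_iff_integrable_sq_norm hbc.aestronglyMeasurable).2 ?_
    exact int_c ⟨fun y => ‖blk J g y‖ ^ 2, by fun_prop⟩
  have hpt : ∀ x ∈ ball (0 : E (c + 2)) ((N : ℝ) / 36), ‖ft (blk J g) x‖ₑ ^ q ≤
      ENNReal.ofReal ((2 : ℝ) ^ (-(N : ℝ))) * (ENNReal.ofReal V ^ (q / 2) *
        ENNReal.ofReal (N2 g) ^ (q / 2)) := by
    intro x hx
    rw [mem_ball_zero_iff] at hx
    have h1 := hT c N (blk J g) hbL (Deg_blk hSL hJ hg) x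
    have h2 : (2 * Real.pi * ‖x‖) ^ N / (N.factorial : ℝ) ≤ (2 : ℝ) ^ (-(N : ℝ)) := by
      have h3 : (N : ℝ) ^ N / (N.factorial : ℝ) ≤ Real.exp N :=
        Real.pow_div_factorial_le_exp _ hN0.le N
      have h4 : 2 * Real.pi * ‖x‖ ≤ (2 * Real.pi / 36) * N := by
        have := Real.pi_pos
        nlinarith [norm_nonneg x]
      have hpi := Real.pi_pos
      have hfac : (0 : ℝ) < N.factorial := by exact_mod_cast N.factorial_pos
      calc (2 * Real.pi * ‖x‖) ^ N / (N.factorial : ℝ) ≤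
          ((2 * Real.pi / 36) * N) ^ N / (N.factorial : ℝ) := by
            apply div_le_div_of_nonneg_right _ hfac.le
            exact pow_le_pow_left₀ (by positivity) h4 N
        _ = (2 * Real.pi / 36) ^ N * ((N : ℝ) ^ N / (N.factorial : ℝ)) := by
            rw [mul_pow]; ring
        _ ≤ (2 * Real.pi / 36) ^ N * Real.exp N :=
            mul_le_mul_of_nonneg_left h3 (by positivity)
        _ = (2 * Real.pi / 36 * Real.exp 1) ^ N := by
            rw [mul_pow, ← Real.exp_nat_mul, mul_one]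
        _ ≤ (1 / 2 : ℝ) ^ N := by
            apply pow_le_pow_left₀ (by positivity)
            have h5 := Real.exp_one_lt_d9
            have h6 := Real.pi_lt_d2
            have h7 := Real.exp_pos 1
            nlinarith
        _ = _ := by
            rw [Real.rpow_neg (by norm_num), Real.rpow_natCast, one_div, inv_pow]
    have h2' : 0 ≤ (2 * Real.pi * ‖x‖) ^ N / (N.factorial : ℝ) := by
      have := Real.pi_pos
      positivity
    have hN2 : 0 ≤ N2 g := integral_nonneg fun y => by positivity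
    have h3 : ‖ft (blk J g) x‖ ^ 2 ≤ (2 : ℝ) ^ (-(N : ℝ)) * (V * N2 g) := by
      have hs : ((2 : ℝ) ^ (-(N : ℝ))) ≤ 1 :=
        Real.rpow_le_one_of_one_le_of_nonpos (by norm_num) (by linarith)
      have hs0 : 0 ≤ ((2 : ℝ) ^ (-(N : ℝ))) := by positivity
      have h5 : ((2 * Real.pi * ‖x‖) ^ N / (N.factorial : ℝ)) ^ 2 ≤ (2 : ℝ) ^ (-(N : ℝ)) := by
        nlinarith
      calc ‖ft (blk J g) x‖ ^ 2 ≤ ((2 * Real.pi * ‖x‖) ^ N / (N.factorial : ℝ)) ^ 2 * V *
            N2 (blk J g) := h1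
        _ ≤ (2 : ℝ) ^ (-(N : ℝ)) * V * N2 g := by
            apply mul_le_mul _ s2 (integral_nonneg fun y => by positivity) (by positivity)
            exact mul_le_mul_of_nonneg_right h5 hVp.le
        _ = _ := by ring
    have h4 : ‖ft (blk J g) x‖ₑ ^ q = ENNReal.ofReal (‖ft (blk J g) x‖ ^ 2) ^ (q / 2) := by
      rw [← ofReal_norm, ENNReal.ofReal_pow (norm_nonneg _), ← ENNReal.rpow_natCast,
        ← ENNReal.rpow_mul]
      congr 1
      push_cast
      ring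
    rw [h4]
    calc ENNReal.ofReal (‖ft (blk J g) x‖ ^ 2) ^ (q / 2) ≤
        ENNReal.ofReal ((2 : ℝ) ^ (-(N : ℝ)) * (V * N2 g)) ^ (q / 2) :=
          ENNReal.rpow_le_rpow (ENNReal.ofReal_le_ofReal h3) (by linarith)
      _ = ENNReal.ofReal ((2 : ℝ) ^ (-(N : ℝ))) ^ (q / 2) * (ENNReal.ofReal V ^ (q / 2) *
          ENNReal.ofReal (N2 g) ^ (q / 2)) := by
          rw [ENNReal.ofReal_mul (by positivity), ENNReal.ofReal_mul hVp.le,
            ENNReal.mul_rpow_of_nonneg _ _ (by linarith), ENNReal.mul_rpow_of_nonneg _ _ (by linarith)]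
      _ ≤ _ := by
          refine mul_le_mul' ?_ le_rfl
          rw [ENNReal.ofReal_rpow_of_nonneg (by positivity) (by linarith)]
          apply ENNReal.ofReal_le_ofReal
          rw [← Real.rpow_mul (by norm_num)]
          apply Real.rpow_le_rpow_of_exponent_le (by norm_num)
          nlinarith
  have hvol : volume (ball (0 : E (c + 2)) ((N : ℝ) / 36)) ≤
      ENNReal.ofReal ((N : ℝ) ^ ((c : ℝ) + 2)) * v := by
    rw [Measure.addHaar_ball _ _ (by positivity)]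
    refine mul_le_mul' (ENNReal.ofReal_le_ofReal ?_) le_rfl
    rw [show Module.finrank ℝ (E (c + 2)) = c + 2 by simp]
    calc ((N : ℝ) / 36) ^ (c + 2) ≤ (N : ℝ) ^ (c + 2) :=
          pow_le_pow_left₀ (by positivity) (by linarith) _
      _ = _ := by
          rw [← Real.rpow_natCast]
          push_cast
          rfl
  calc ∫⁻ x in ball 0 ((N : ℝ) / 36), ‖ft (blk J g) x‖ₑ ^ q ≤
      ∫⁻ _x in ball (0 : E (c + 2)) ((N : ℝ) / 36), ENNReal.ofReal ((2 : ℝ) ^ (-(N : ℝ))) *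
        (ENNReal.ofReal V ^ (q / 2) * ENNReal.ofReal (N2 g) ^ (q / 2)) :=
        setLIntegral_mono' measurableSet_ball hpt
    _ = ENNReal.ofReal ((2 : ℝ) ^ (-(N : ℝ))) *
        (ENNReal.ofReal V ^ (q / 2) * ENNReal.ofReal (N2 g) ^ (q / 2)) *
          volume (ball (0 : E (c + 2)) ((N : ℝ) / 36)) := by
        rw [lintegral_const, Measure.restrict_apply_univ]
    _ ≤ ENNReal.ofReal ((2 : ℝ) ^ (-(N : ℝ))) *
        (ENNReal.ofReal V ^ (q / 2) * ((sg (c + 2) univ) ^ (q / 2 - 1) *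
          ∫⁻ y, ‖g y‖ₑ ^ q ∂(sg (c + 2)))) *
          (ENNReal.ofReal ((N : ℝ) ^ ((c : ℝ) + 2)) * v) :=
        mul_le_mul' (mul_le_mul' le_rfl (mul_le_mul' le_rfl (holder2 hq hg))) hvol
    _ = ENNReal.ofReal ((N : ℝ) ^ ((c : ℝ) + 2)) * ENNReal.ofReal ((2 : ℝ) ^ (-(N : ℝ))) * W *
          ∫⁻ y, ‖g y‖ₑ ^ q ∂(sg (c + 2)) := by
        rw [hW]; ring
    _ ≤ ENNReal.ofReal (C1 * (N : ℝ) ^ (-1 : ℝ)) * ENNReal.ofReal (W.toReal + 1) *
          ∫⁻ y, ‖g y‖ₑ ^ q ∂(sg (c + 2)) := by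
        refine mul_le_mul' (mul_le_mul' ?_ ?_) le_rfl
        · rw [← ENNReal.ofReal_mul (by positivity)]
          apply ENNReal.ofReal_le_ofReal
          have h := hC N hN1
          rw [Real.rpow_one, one_mul] at h
          exact h
        · rw [ENNReal.le_ofReal_iff_toReal_le hWt (by positivity)]
          linarith
    _ = _ := by
        rw [← ENNReal.ofReal_mul (by positivity)]
        congr 2
        ring

/-- the tail of the Bessel integral -/
lemma far_int {q C0 B : ℝ} (hq : 2 < q) (hB : 0 < B) (hγ : 1 < sc c * (q - 2))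
    (hBU : ∀ (l : ℕ) (r : ℝ), C0 * ((l : ℝ) + 1) ≤ r → ‖Ic c l r‖ ^ 2 * r ^ (c + 1) ≤ B)
    {R : ℝ} (hR : 0 < R) {k : ℕ} (hk : C0 * ((k : ℝ) + 1) ≤ R) :
    ∫⁻ r in Ioi R, ENNReal.ofReal (‖Ic c k r‖ ^ q * r ^ (c + 1)) ≤
      ENNReal.ofReal (B ^ (q / 2) * (R ^ (1 - sc c * (q - 2)) / (sc c * (q - 2) - 1))) := by
  set γ := sc c * (q - 2) with hγd
  have h1 : ∀ r ∈ Ioi R, ENNReal.ofReal (‖Ic c k r‖ ^ q * r ^ (c + 1)) ≤
      ENNReal.ofReal (B ^ (q / 2)) * ENNReal.ofReal (r ^ (-γ)) := by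
    intro r hr
    have hr0 : 0 < r := hR.trans hr
    have h2 := hBU k r (hk.trans (le_of_lt hr))
    have h3 : (‖Ic c k r‖ ^ 2 * r ^ (c + 1)) ^ (q / 2) ≤ B ^ (q / 2) :=
      Real.rpow_le_rpow (by positivity) h2 (by linarith)
    rw [← ENNReal.ofReal_mul (by positivity)]
    apply ENNReal.ofReal_le_ofReal
    have e1 : ‖Ic c k r‖ ^ q * r ^ (c + 1) = (‖Ic c k r‖ ^ 2 * r ^ (c + 1)) ^ (q / 2) * r ^ (-γ) := by
      rw [Real.mul_rpow (by positivity) (by positivity), ← Real.rpow_natCast ‖Ic c k r‖ 2,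
        ← Real.rpow_mul (norm_nonneg _), ← Real.rpow_natCast r (c + 1), ← Real.rpow_mul hr0.le,
        mul_assoc, ← Real.rpow_add hr0]
      congr 2
      · push_cast; ring
      · rw [hγd]
        unfold sc
        push_cast
        ring
    rw [e1]
    exact mul_le_mul_of_nonneg_right h3 (by positivity)
  refine (setLIntegral_mono' measurableSet_Ioi h1).trans ?_
  rw [lintegral_const_mul' _ _ ENNReal.ofReal_ne_top, L_Ioi (by linarith) hR,
    ← ENNReal.ofReal_mul (by positivity)]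
  apply ENNReal.ofReal_le_ofReal
  apply le_of_eq
  congr 1
  rw [show -γ + 1 = -(γ - 1) by ring, neg_div_neg_eq]
  congr 2
  ring

end Pool.Agent.N303.SJ
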