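import Pool.Agent.N303.SH.K9

set_option autoImplicit false

/-!
# Project SJ: restriction estimates for sparse spherical harmonic expansions, all `δ < 1`

`c ≥ 1`, dimension `n = c + 2 ≥ 3`, `q > 2 + 2 (1 + δ) / (c + 1)`. Statements of the leaves.
-/

open MeasureTheory Metric Set
open scoped ENNReal RealInnerProductSpace NNReal

namespace Pool.Agent.N303.SJ

open Pool.Agent.N303.SH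

/-- the square of the `L²` norm -/
noncomputable def N2 {n : ℕ} (g : S n → ℂ) : ℝ := ∫ y, ‖g y‖ ^ 2 ∂(sg n)

/-- separation of the degrees in `J` from all the other degrees of `K` -/
def Sepa (K : Set ℕ) (J : Finset ℕ) (m : ℕ) : Prop :=
  (∀ k ∈ J, k ∈ K) ∧ ∀ k ∈ K, ∀ k' ∈ J, k ≠ k' → k + 2 * m < k' ∨ k' + 2 * m < k

/-- the shell `T ≤ ‖x‖ ≤ 2 T` -/
def Sh (n : ℕ) (T : ℝ) : Set (E n) := {x | T ≤ ‖x‖ ∧ ‖x‖ ≤ 2 * T}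

/-- ST: the theorem of Stein and Tomas away from the endpoint. -/
def S_ST : Prop := ∀ c : ℕ, 1 ≤ c → ∀ P : ℝ, 2 + 4 / ((c : ℝ) + 1) < P → ∃ C : ℝ, 0 < C ∧
  ∀ g : S (c + 2) → ℂ, MemLp g 2 (sg (c + 2)) →
    ∫⁻ x, ‖ft g x‖ₑ ^ P ≤ ENNReal.ofReal (C * N2 g ^ (P / 2))

/-- TAY: the transform of a function with only high degrees is small near the origin. -/
def S_TAY : Prop := ∀ (c L : ℕ) (g : S (c + 2) → ℂ), MemLp g 2 (sg (c + 2)) →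
  Deg {l | L ≤ l} g → ∀ x : E (c + 2),
    ‖ft g x‖ ^ 2 ≤ ((2 * Real.pi * ‖x‖) ^ L / L.factorial) ^ 2 * (sg (c + 2)).real univ * N2 g

/-- SL: orthogonality on spheres. -/
def S_SL : Prop := ∀ (c : ℕ) (g : S (c + 2) → ℂ), MemLp g 2 (sg (c + 2)) → ∀ J : Finset ℕ,
  N2 (blk J g) = ∑ k ∈ J, N2 (cp k g) ∧ N2 (blk J g) ≤ N2 g ∧
  MemLp (fun x => g x - blk J g x) 2 (sg (c + 2)) ∧
  N2 (fun x => g x - blk J g x) ≤ N2 g ∧ Deg {l | l ∉ J} (fun x => g x - blk J g x) ∧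
  ∀ r : ℝ, 0 ≤ r →
    (∫ w, ‖ft (blk J g) (r • (w : E (c + 2)))‖ ^ 2 ∂(sg (c + 2)) =
      ∑ k ∈ J, ‖Ic c k r‖ ^ 2 * N2 (cp k g)) ∧
    ∫ w, ‖ft (blk J g) (r • (w : E (c + 2)))‖ ^ 2 ∂(sg (c + 2)) ≤
      ∫ w, ‖ft g (r • (w : E (c + 2)))‖ ^ 2 ∂(sg (c + 2))

/-- BESU: upper bound for the Bessel type functions `Ic c l` far from the turning point. -/
def S_BESU : Prop := ∀ c : ℕ, 1 ≤ c → ∃ C0 B : ℝ, 1 ≤ C0 ∧ 0 < B ∧ ∀ (l : ℕ) (r : ℝ),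
  C0 * ((l : ℝ) + 1) ≤ r → ‖Ic c l r‖ ^ 2 * r ^ (c + 1) ≤ B

/-- BESL: lower bound for the means of the Bessel type functions. -/
def S_BESL : Prop := ∀ c : ℕ, 1 ≤ c → ∃ C0 b : ℝ, 1 ≤ C0 ∧ 0 < b ∧ ∀ (l : ℕ) (ρ : ℝ),
  C0 * ((l : ℝ) + 1) ≤ ρ →
    ENNReal.ofReal (b * ρ) ≤ ∫⁻ r in Ioo 0 ρ, ENNReal.ofReal (‖Ic c l r‖ ^ 2 * r ^ (c + 1))

/-- WB: windows of the Bessel type functions. -/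
def S_WB : Prop := ∀ c : ℕ, 1 ≤ c → ∀ q : ℝ, 2 < q → q < 4 → 1 < sc c * (q - 2) →
  ∃ B : ℝ, 0 < B ∧ ∀ (k : ℕ) (T : ℝ), 0 < T →
    ∫⁻ r in Ioo (T / 2) (3 * T),
      ENNReal.ofReal (‖Ic c k r‖ ^ q * r ^ (((c : ℝ) + 1) * q / 2)) ≤ ENNReal.ofReal (B * T)

/-- BALL: local version of the theorem of Stein and Tomas. -/
def S_BALL : Prop := ∀ c : ℕ, 1 ≤ c → ∀ P q : ℝ, 2 + 4 / ((c : ℝ) + 1) < P → 2 < q → q < P →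
  ∃ C2 C : ℝ, 1 ≤ C2 ∧ 0 < C ∧ ∀ g : S (c + 2) → ℂ, MemLp g 2 (sg (c + 2)) →
    ∀ (x0 : E (c + 2)) (ℓ : ℝ), 1 ≤ ℓ →
      ∫⁻ x in ball x0 ℓ, ‖ft g x‖ₑ ^ q ≤
        ENNReal.ofReal (C * ℓ ^ (-(P * (q - 2) / (P - 2) / 2))) *
          (∫⁻ x in ball x0 (C2 * ℓ), ‖ft g x‖ₑ ^ (2 : ℝ)) ^ (q / 2) +
        ENNReal.ofReal (C * ℓ ^ ((c : ℝ) + 2) * (2 : ℝ) ^ (-ℓ) * N2 g ^ (q / 2))

/-- PK: localising zonal polynomials. -/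
def S_PK : Prop := ∀ c : ℕ, ∃ C a : ℝ, 0 < C ∧ 0 < a ∧ ∀ m : ℕ, 1 ≤ m →
  ∃ p : S (c + 2) → C(S (c + 2), ℝ), (∀ x, p x ∈ Pool.Agent.N303.SH.P (c + 2) m) ∧
    (∀ x y, p x y = p y x) ∧ Continuous (fun z : S (c + 2) × S (c + 2) => p z.1 z.2) ∧
    (∀ x, ∫ y, p x y ^ 2 ∂(sg (c + 2)) ≤ C * (m : ℝ) ^ (-((c : ℝ) + 1))) ∧
    ∀ x y : S (c + 2), ‖(x : E (c + 2)) - y‖ ≤ a / m → 1 / 2 ≤ |p x y|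

/-- JEN: Jensen's inequality for the localisations. -/
def S_JEN : Prop := ∀ (n : ℕ) (p : S n → C(S n, ℝ)) (D : ℝ), 0 < D →
  Continuous (fun z : S n × S n => p z.1 z.2) → (∀ x y, p x y = p y x) →
  (∀ x, ∫ y, p x y ^ 2 ∂(sg n) ≤ D) → ∀ q : ℝ, 2 < q → ∀ g : S n → ℂ, Measurable g →
  MemLp g 2 (sg n) →
    ∫⁻ x, ENNReal.ofReal (∫ y, p x y ^ 2 * ‖g y‖ ^ 2 ∂(sg n)) ^ (q / 2) ∂(sg n) ≤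
      ENNReal.ofReal (D ^ (q / 2)) * ∫⁻ y, ‖g y‖ₑ ^ q ∂(sg n)

/-- PT: multiplication of a sparse sum by a polynomial of small degree. -/
def S_PT : Prop := ∀ (c : ℕ) (K : Set ℕ) (J : Finset ℕ) (m : ℕ), Sepa K J m →
  ∀ g : S (c + 2) → ℂ, MemLp g 2 (sg (c + 2)) → Deg K g →
  ∀ p ∈ Pool.Agent.N303.SH.P (c + 2) m,
    (∑ k ∈ J, ∫ y, p y ^ 2 * ‖cp k g y‖ ^ 2 ∂(sg (c + 2)) ≤
      ∫ y, p y ^ 2 * ‖g y‖ ^ 2 ∂(sg (c + 2))) ∧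
    ∀ r : ℝ, 0 ≤ r → ∫ w, p w ^ 2 * ‖ft (blk J g) (r • (w : E (c + 2)))‖ ^ 2 ∂(sg (c + 2)) =
      ∑ k ∈ J, ‖Ic c k r‖ ^ 2 * ∫ y, p y ^ 2 * ‖cp k g y‖ ^ 2 ∂(sg (c + 2))

/-- LOC: the localised energy in a ball is controlled by the localised components. -/
def S_LOC : Prop := ∀ (c : ℕ) (K : Set ℕ) (J : Finset ℕ) (m : ℕ), Sepa K J m →
  ∀ g : S (c + 2) → ℂ, MemLp g 2 (sg (c + 2)) → Deg K g →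
  ∀ p ∈ Pool.Agent.N303.SH.P (c + 2) m, ∀ (w0 : S (c + 2)) (ρ r0 : ℝ), 0 < ρ → ρ ≤ r0 / 2 →
    (∀ w : S (c + 2), ‖(w : E (c + 2)) - w0‖ ≤ 2 * ρ / r0 → 1 / 2 ≤ |p w|) →
    ∫⁻ y in ball (r0 • (w0 : E (c + 2))) ρ, ‖ft (blk J g) y‖ₑ ^ (2 : ℝ) ≤
      4 * ∑ k ∈ J, ENNReal.ofReal (∫ y, p y ^ 2 * ‖cp k g y‖ ^ 2 ∂(sg (c + 2))) *
        ∫⁻ r in Ioo (r0 - ρ) (r0 + ρ), ENNReal.ofReal (‖Ic c k r‖ ^ 2 * r ^ (c + 1))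

/-- BB: means of the energies in the balls of a shell. -/
def S_BB : Prop := ∀ c : ℕ, 1 ≤ c → ∀ q : ℝ, 2 < q → q < 4 → 1 < sc c * (q - 2) →
  ∃ a B : ℝ, 0 < a ∧ 0 < B ∧ ∀ (K : Set ℕ) (J : Finset ℕ) (m : ℕ), Sepa K J m → 1 ≤ m →
  ∀ g : S (c + 2) → ℂ, Measurable g → MemLp g 2 (sg (c + 2)) → Deg K g →
  ∀ T ρ : ℝ, 0 < ρ → ρ ≤ a * T / m →
    ∫⁻ x in Sh (c + 2) T, (∫⁻ y in ball x ρ, ‖ft (blk J g) y‖ₑ ^ (2 : ℝ)) ^ (q / 2) ≤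
      ENNReal.ofReal (B * (m : ℝ) ^ (-(((c : ℝ) + 1) * q / 2)) * T ^ ((c : ℝ) + 2) *
        ρ ^ (q / 2)) * ∫⁻ y, ‖g y‖ₑ ^ q ∂(sg (c + 2))

/-- SHELL: the estimate for a block in a shell. Here `s = (q - 2) / (P - 2)` and
`γ = sc c * (q - 2)`. -/
def S_SHELL : Prop := ∀ c : ℕ, 1 ≤ c → ∀ P q : ℝ, 2 + 4 / ((c : ℝ) + 1) < P → 2 < q → q < 4 →
  q < P → 1 < sc c * (q - 2) →
  ∃ a B : ℝ, 0 < a ∧ 0 < B ∧ ∀ (K : Set ℕ) (J : Finset ℕ) (m : ℕ), Sepa K J m → 1 ≤ m →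
  ∀ g : S (c + 2) → ℂ, Measurable g → MemLp g 2 (sg (c + 2)) → Deg K g →
  ∀ T : ℝ, (m : ℝ) ≤ a * T →
    ∫⁻ x in Sh (c + 2) T, ‖ft (blk J g) x‖ₑ ^ q ≤
      ENNReal.ofReal (B * (T ^ (1 - (q - 2) / (P - 2)) *
        (m : ℝ) ^ ((q - 2) / (P - 2) - sc c * (q - 2)) +
        T ^ ((c : ℝ) + 2) * (2 : ℝ) ^ (-(a * T / m)))) * ∫⁻ y, ‖g y‖ₑ ^ q ∂(sg (c + 2))

/-- FAR: the block estimate outside a ball (the theorem `block` of `SH/K4.lean` with the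
integrals over `r > 0` replaced by integrals over `r > R`). -/
def S_FAR : Prop := ∀ (c : ℕ) (K : Set ℕ) (J : Finset ℕ) (m M : ℕ), Sepa K J m →
  (∀ k ∈ J, k + m ≤ M) → ∀ q b z Z R : ℝ, 2 < q → 0 ≤ b → 0 ≤ R →
  (∀ k ∈ J, ∫⁻ r in Ioi R, ENNReal.ofReal (‖Ic c k r‖ ^ q * r ^ (c + 1)) ≤ ENNReal.ofReal b) →
  0 < z → (∀ x : S (c + 2), zs (c + 2) m x = z) →
  0 < Z → (∀ x : S (c + 2), zs (c + 2) M x = Z) →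
  ∀ g : S (c + 2) → ℂ, Measurable g → MemLp g 2 (sg (c + 2)) → Deg K g →
    ∫⁻ ξ in {ξ | R < ‖ξ‖}, ‖ft (blk J g) ξ‖ₑ ^ q ≤
      ENNReal.ofReal (2 ^ q * q * ((Z / z) ^ ((q - 2) / 2) * (2 * b)) * (1 / (q - 2))) *
        ∫⁻ y, ‖g y‖ₑ ^ q ∂(sg (c + 2))

/-- BLK: the dyadic blocks decay. -/
def S_BLK : Prop := ∀ c : ℕ, 1 ≤ c → ∀ q δ c0 : ℝ, q < 2 + 4 / ((c : ℝ) + 1) → 0 < δ → δ < 1 →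
  0 < c0 → c0 ≤ 1 → 1 + δ < sc c * (q - 2) →
  ∃ C ε : ℝ, 0 < C ∧ 0 < ε ∧ ∀ K : Set ℕ, Sparse δ c0 K → ∀ g : S (c + 2) → ℂ, Measurable g →
    MemLp g 2 (sg (c + 2)) → Deg K g → ∀ j, ∫⁻ ξ, ‖ft (blk (dj K j) g) ξ‖ₑ ^ q ≤
      ENNReal.ofReal (C * ((2 : ℝ) ^ j) ^ (-ε)) * ∫⁻ y, ‖g y‖ₑ ^ q ∂(sg (c + 2))

end Pool.Agent.N303.SJ
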